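import Pool.Agent.Helper9.PP.Stm
import Pool.Agent.Helper90.FJ.Ample

/-!
Project PP (helper9): package JETS, the `1`-jets of the sections of a very ample line bundle.
-/

set_option autoImplicit false
set_option linter.unusedSectionVars false

namespace Pool.Agent.Helper4.PP

open FF Module MvPolynomial Pool.Agent.Helper9.FJ Pool.Agent.Helper9.PP Pool.Agent.Helper90.FJ

section gen

variable {I J : Type} [Fintype I] [DecidableEq I] [Fintype J] [DecidableEq J] {R : Type}
  [CommRing R]

/-- the directional derivative -/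
noncomputable def dd (x y : I → R) (f : MvPolynomial I R) : R :=
  ∑ i, y i * eval x (pderiv i f)

theorem dd_C (x y : I → R) (c : R) : dd x y (C c) = 0 := by
  unfold dd
  simp

theorem dd_add (x y : I → R) (f g : MvPolynomial I R) : dd x y (f + g) = dd x y f + dd x y g := by
  unfold dd
  rw [← Finset.sum_add_distrib]
  refine Finset.sum_congr rfl fun i _ => ?_
  rw [map_add, map_add, mul_add]

theorem dd_mul (x y : I → R) (f g : MvPolynomial I R) :
    dd x y (f * g) = dd x y f * eval x g + eval x f * dd x y g := by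
  unfold dd
  rw [Finset.sum_mul, Finset.mul_sum, ← Finset.sum_add_distrib]
  refine Finset.sum_congr rfl fun i _ => ?_
  rw [pderiv_mul, map_add, _root_.map_mul, _root_.map_mul]
  ring

theorem dd_X (x y : I → R) (j : I) : dd x y (X j) = y j := by
  unfold dd
  rw [Finset.sum_eq_single j]
  · rw [pderiv_X_self, _root_.map_one, mul_one]
  · intro b _ hb
    rw [pderiv_X_of_ne hb.symm, _root_.map_zero, mul_zero]
  · intro h; exact absurd (Finset.mem_univ _) h

theorem dd_sum {B : Type} (s : Finset B) (x y : I → R) (f : B → MvPolynomial I R) :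
    dd x y (∑ b ∈ s, f b) = ∑ b ∈ s, dd x y (f b) := by
  unfold dd
  rw [Finset.sum_comm]
  refine Finset.sum_congr rfl fun i _ => ?_
  rw [map_sum, map_sum, Finset.mul_sum]

/-- the chain rule for linear substitutions -/
theorem dd_ps (h : Matrix J I R) (x y : I → R) (f : MvPolynomial J R) :
    dd x y (ps h f) = dd (h.mulVec x) (h.mulVec y) f := by
  induction f using MvPolynomial.induction_on with
  | C c => rw [ps_C, dd_C, dd_C]
  | add p q hp hq => rw [map_add, dd_add, dd_add, hp, hq]
  | mul_X p j hp =>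
    rw [_root_.map_mul, dd_mul, dd_mul, hp, ps_X, dd_X, dd_sum, eval_ps]
    have h1 : eval x (∑ l, C (h j l) * X l) = eval (h.mulVec x) (X j) := by
      rw [← ps_X, eval_ps]
    have h2 : ∑ l, dd x y (C (h j l) * X l) = h.mulVec y j := by
      refine Finset.sum_congr rfl fun l _ => ?_
      rw [dd_mul, dd_C, dd_X, eval_C]
      ring
    rw [h1, h2]

/-- the Taylor formula -/
theorem taylor (x y : I → R) (t : R) (f : MvPolynomial I R) :
    ∃ c, eval (x + t • y) f = eval x f + t * dd x y f + t ^ 2 * c := by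
  induction f using MvPolynomial.induction_on with
  | C c => exact ⟨0, by rw [dd_C, eval_C, eval_C]; ring⟩
  | add p q hp hq =>
    obtain ⟨a, ha⟩ := hp
    obtain ⟨b, hb⟩ := hq
    exact ⟨a + b, by rw [map_add, map_add, dd_add, ha, hb]; ring⟩
  | mul_X p j hp =>
    obtain ⟨a, ha⟩ := hp
    refine ⟨a * (x j + t * y j) + dd x y p * y j, ?_⟩
    rw [_root_.map_mul, _root_.map_mul, dd_mul, dd_X, ha, eval_X, eval_X, Pi.add_apply,
      Pi.smul_apply, smul_eq_mul]
    ring

theorem dd_map {S : Type} [CommRing S] (θ : R →+* S) (x y : I → R) (f : MvPolynomial I R) :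
    θ (dd x y f) = dd (fun i => θ (x i)) (fun i => θ (y i)) (MvPolynomial.map θ f) := by
  unfold dd
  rw [map_sum]
  refine Finset.sum_congr rfl fun i _ => ?_
  rw [_root_.map_mul, pderiv_map, MvPolynomial.eval_map]
  congr 1
  exact MvPolynomial.hom_eval₂ (pderiv i f) (RingHom.id _) θ x |>.trans rfl

theorem eval_map' {S : Type} [CommRing S] (θ : R →+* S) (x : I → R) (f : MvPolynomial I R) :
    θ (eval x f) = eval (fun i => θ (x i)) (MvPolynomial.map θ f) := by
  rw [MvPolynomial.eval_map]
  exact MvPolynomial.hom_eval₂ f (RingHom.id _) θ x |>.trans rfl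

end gen

section blk

variable {l : ℕ} {r R : Fin l → ℕ} {A : Type} [CommRing A]

/-- the block matrix -/
def bm (h : ∀ j, Matrix (Fin (r j)) (Fin (R j)) A) : Matrix (Vr r) (Vr R) A :=
  Matrix.blockDiagonal' h

theorem bm_sum {B : Type} [AddCommMonoid B] (h : ∀ j, Matrix (Fin (r j)) (Fin (R j)) A)
    (x : Vr r) (φ : A → Vr R → B) (hφ : ∀ y, φ 0 y = 0) :
    ∑ y, φ (bm h x y) y = ∑ i, φ (h x.1 x.2 i) ⟨x.1, i⟩ := by
  rw [Fintype.sum_sigma]
  rw [Finset.sum_eq_single x.1]
  · refine Finset.sum_congr rfl fun i _ => ?_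
    congr 1
    exact Matrix.blockDiagonal'_apply_eq h x.1 x.2 i
  · intro j _ hj
    apply Finset.sum_eq_zero
    intro i _
    have : bm h x ⟨j, i⟩ = 0 := Matrix.blockDiagonal'_apply_ne h x.2 i (Ne.symm hj)
    rw [this, hφ]
  · intro h; exact absurd (Finset.mem_univ _) h

theorem bm_mulVec (h : ∀ j, Matrix (Fin (r j)) (Fin (R j)) A) (v : Vr R → A) (x : Vr r) :
    (bm h).mulVec v x = (h x.1).mulVec (fun i => v ⟨x.1, i⟩) x.2 :=
  bm_sum h x (fun a y => a * v y) (fun y => zero_mul _)

theorem bm_map {B : Type} [CommRing B] (θ : A →+* B)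
    (h : ∀ j, Matrix (Fin (r j)) (Fin (R j)) A) :
    (bm h).map θ = bm (fun j => (h j).map θ) :=
  Matrix.blockDiagonal'_map h θ (map_zero θ)

theorem bm_mul {R' : Fin l → ℕ} (h : ∀ j, Matrix (Fin (r j)) (Fin (R j)) A)
    (h' : ∀ j, Matrix (Fin (R j)) (Fin (R' j)) A) :
    bm h * bm h' = bm (fun j => h j * h' j) :=
  (Matrix.blockDiagonal'_mul h h').symm

variable {K : Type} [Field K] [Algebra ℂ K]

theorem psM_X' (h : ∀ j, Matrix (Fin (r j)) (Fin (R j)) K) (x : Vr r) :
    psM h (X x) = ∑ i, C (h x.1 x.2 i) * X ⟨x.1, i⟩ := aeval_X _ _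

theorem psM_eq (h : ∀ j, Matrix (Fin (r j)) (Fin (R j)) K) (s : MvPolynomial (Vr r) K) :
    psM h s = ps (bm h) s := by
  have : psM h = ps (bm h) := by
    apply MvPolynomial.algHom_ext
    intro x
    rw [psM_X', ps_X]
    exact (bm_sum h x (fun a y => (C a * X y : MvPolynomial (Vr R) K))
      (fun y => by rw [C_0, zero_mul])).symm
  rw [this]

theorem locM_eq (E : ∀ j, Bundle K (r j)) (P : Place ℂ K) (s : MvPolynomial (Vr r) K) :
    locM E P s = ps (bm fun j => ((E j).B P)⁻¹) s := by
  rw [← psM_eq]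
  rfl

theorem ptM_eq (E : ∀ j, Bundle K (r j)) (P : Place ℂ K) (ξ : ∀ j, Fin (r j) → ℂ) :
    ptM E P ξ = (bm fun j => ((E j).B P)⁻¹).mulVec (fun x => algebraMap ℂ K (ξ x.1 x.2)) := by
  funext x
  rw [bm_mulVec]
  rfl

/-- the origin of the affine chart -/
def e0 (A : Type) [CommRing A] (R : Fin l → ℕ) : Vr R → A :=
  fun x => if (x.2 : ℕ) = 0 then 1 else 0

theorem coeff_zero_dh (f : MvPolynomial (Vr R) K) : coeff 0 (dh f) = eval (e0 K R) f := by
  have : (constantCoeff (R := K) (σ := Vr R)).comp (dh (K := K) (R := R)).toRingHom =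
      eval (e0 K R) := by
    apply MvPolynomial.ringHom_ext
    · intro r
      change constantCoeff (dh (C r)) = _
      unfold dh
      rw [aeval_C, eval_C]
      exact constantCoeff_C _ _
    · intro x
      change constantCoeff (dh (X x)) = _
      unfold dh e0
      rw [aeval_X, eval_X]
      split_ifs
      · simp
      · simp
  exact RingHom.congr_fun this f

theorem coeff_single_dh (f : MvPolynomial (Vr R) K) (x : Fr R) :
    coeff (Finsupp.single x.1 1) (dh f) = eval (e0 K R) (pderiv x.1 f) := by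
  classical
  induction f using MvPolynomial.induction_on with
  | C c =>
    unfold dh
    rw [aeval_C, pderiv_C, _root_.map_zero, MvPolynomial.algebraMap_eq, coeff_C, if_neg]
    intro h
    have := DFunLike.congr_fun h x.1
    simp at this
  | add p q hp hq => rw [map_add, map_add, map_add, coeff_add, hp, hq]
  | mul_X p i hp =>
    rw [_root_.map_mul, pderiv_mul, map_add, _root_.map_mul, _root_.map_mul, ← hp]
    have h1 : dh (K := K) (R := R) (X i) = if (i.2 : ℕ) = 0 then 1 else X i := by
      unfold dh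
      rw [aeval_X]
    rw [h1, eval_X]
    by_cases hi : (i.2 : ℕ) = 0
    · have h2 : i ≠ x.1 := by
        rintro rfl
        exact x.2 hi
      rw [if_pos hi, mul_one, pderiv_X_of_ne h2, _root_.map_zero, mul_zero, add_zero]
      unfold e0
      rw [if_pos hi, mul_one]
    · rw [if_neg hi]
      have h3 : e0 K R i = 0 := if_neg hi
      rw [h3, mul_zero, zero_add, coeff_mul_X']
      by_cases hx : i = x.1
      · subst hx
        rw [if_pos (by simp), pderiv_X_self, _root_.map_one, mul_one, tsub_self, coeff_zero_dh]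
      · rw [if_neg, pderiv_X_of_ne hx, _root_.map_zero, mul_zero]
        intro h
        rw [Finsupp.mem_support_iff, Finsupp.single_apply] at h
        apply h
        rw [if_neg]
        exact fun h' => hx h'.symm

end blk

end Pool.Agent.Helper4.PP
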