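import Pool.Agent.Helper4.PP.Jet0

/-!
Project PP (helper9): package JETS, the `1`-jets of the sections of a very ample line bundle.
-/

set_option autoImplicit false
set_option linter.unusedSectionVars false

namespace Pool.Agent.Helper4.PP

open FF Module MvPolynomial Pool.Agent.Helper9.FJ Pool.Agent.Helper9.PP Pool.Agent.Helper90.FJ

section loc

variable {K : Type} [Field K] [Algebra ℂ K] [IsFF ℂ K] {P : Place ℂ K}

/-- the uniformizer in the valuation ring -/
def tO (P : Place ℂ K) (t : K) (ht : P.ord t = 1) : P.O := ⟨t, Or.inr (by rw [ht]; exact zero_le_one)⟩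

theorem div_t {t : K} (ht : P.ord t = 1) {a : P.O} (h : theta P a = 0) :
    ∃ b, a = tO P t ht * b := by
  have ht0 : t ≠ 0 := by rintro rfl; rw [P.ord_zero] at ht; omega
  rw [theta_eq_zero] at h
  have h1 : Ge P (-1) t⁻¹ := Or.inr (by rw [P.ord_inv, ht])
  have h2 := ge_mul h1 h
  rw [neg_add_cancel] at h2
  refine ⟨⟨t⁻¹ * io P a, h2⟩, ?_⟩
  apply Subtype.ext
  change a.1 = t * (t⁻¹ * a.1)
  rw [← mul_assoc, mul_inv_cancel₀ ht0, one_mul]

theorem ge_t_mul {t : K} (ht : P.ord t = 1) (b : P.O) : Ge P 1 (io P (tO P t ht * b)) := by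
  have h1 : Ge P 1 t := Or.inr (by rw [ht])
  have h2 : Ge P 0 (io P b) := b.2
  have := ge_mul h1 h2
  rwa [add_zero] at this

theorem ge_t2_mul {t : K} (ht : P.ord t = 1) (b : P.O) :
    Ge P 2 (io P (tO P t ht ^ 2 * b)) := by
  have h1 : Ge P 1 t := Or.inr (by rw [ht])
  have h2 := ge_mul h1 (ge_t_mul ht b)
  have h3 : io P (tO P t ht ^ 2 * b) = t * io P (tO P t ht * b) := by
    change (tO P t ht ^ 2 * b).1 = t * (tO P t ht * b).1
    rw [pow_two, mul_assoc]
    rfl
  rw [h3]
  exact h2

theorem theta_t {t : K} (ht : P.ord t = 1) : theta P (tO P t ht) = 0 := by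
  rw [theta_eq_zero]
  exact Or.inr (by
    change 1 ≤ P.ord t
    rw [ht])

theorem ge_scale {t : K} (ht : P.ord t = 1) (n m : ℤ) (x : K) :
    Ge P (m - n) x ↔ Ge P m (t ^ n * x) := by
  have ht0 : t ≠ 0 := by rintro rfl; rw [P.ord_zero] at ht; omega
  constructor
  · intro h
    have h2 : Ge P n (t ^ n) := Or.inr (by rw [P.ord_zpow, ht]; simp)
    have := ge_mul h2 h
    rwa [add_sub_cancel] at this
  · intro h
    have h2 : Ge P (-n) (t ^ (-n)) := Or.inr (by rw [P.ord_zpow, ht]; simp)
    have := ge_mul h2 h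
    rw [← mul_assoc, ← zpow_add₀ ht0, neg_add_cancel, zpow_zero, one_mul] at this
    refine ge_mono ?_ this
    omega

end loc

section main

variable {K : Type} [Field K] [Algebra ℂ K] [IsFF ℂ K] {l : ℕ} {r R : Fin l → ℕ}

theorem isMh_add {a : Fin l → ℕ} {s s' : MvPolynomial (Vr r) K} (h : IsMh a s) (h' : IsMh a s') :
    IsMh a (s + s') := by
  intro α hα
  rw [coeff_add] at hα
  by_cases h1 : coeff α s = 0
  · apply h'
    intro h2
    exact hα (by rw [h1, h2, add_zero])
  · exact h α h1

theorem isSecM_add {E : ∀ j, Bundle K (r j)} {a : Fin l → ℕ} {N : Place ℂ K →₀ ℤ}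
    {s s' : MvPolynomial (Vr r) K} (h : IsSecM E a N s) (h' : IsSecM E a N s') :
    IsSecM E a N (s + s') := by
  refine ⟨isMh_add h.1 h'.1, fun P α => ?_⟩
  unfold locM
  rw [map_add, coeff_add]
  exact ge_add (h.2 P α) (h'.2 P α)

theorem isSecM_smul {E : ∀ j, Bundle K (r j)} {a : Fin l → ℕ} {N : Place ℂ K →₀ ℤ}
    {s : MvPolynomial (Vr r) K} (h : IsSecM E a N s) (c : ℂ) :
    IsSecM E a N (C (algebraMap ℂ K c) * s) := by
  refine ⟨fun α hα => ?_, fun P α => ?_⟩
  · rw [coeff_C_mul] at hα
    exact h.1 α (right_ne_zero_of_mul hα)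
  · unfold locM
    rw [_root_.map_mul, aeval_C, MvPolynomial.algebraMap_eq, coeff_C_mul]
    have h1 : Ge P 0 (algebraMap ℂ K c) := P.reg_const c
    have := ge_mul h1 (h.2 P α)
    rwa [zero_add] at this

theorem isSecM_zero (E : ∀ j, Bundle K (r j)) (a : Fin l → ℕ) (N : Place ℂ K →₀ ℤ) :
    IsSecM E a N 0 := by
  refine ⟨fun α hα => absurd (coeff_zero α) hα, fun P α => ?_⟩
  unfold locM
  rw [_root_.map_zero, coeff_zero]
  exact ge_zero

/-- **The `1`-jets of the sections of a very ample line bundle.** -/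
theorem jets : S_JETS := by
  intro K _ _ _ l r R E hR Λ P t d ht hΛ S hS a N hVA
  classical
  let g : ∀ j, Matrix (Fin (R j)) (Fin (R j)) K := fun j =>
    ((E j).B P * Λ j).submatrix (S j) id
  have hg : ∀ j, (g j).det ≠ 0 := fun j => (hS j).1
  let Cm : ∀ j, Matrix (Fin (r j)) (Fin (R j)) K := fun j => (E j).B P * Λ j * (g j)⁻¹
  have hCreg : ∀ j m k, Ge P 0 (Cm j m k) := fun j m k =>
    coord_reg ((E j).B P * Λ j) (S j) (hΛ j) (hS j).2 m k
  have hCid : ∀ j i k, Cm j (S j i) k = (1 : Matrix (Fin (R j)) (Fin (R j)) K) i k := by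
    intro j i k
    have h1 : (g j * (g j)⁻¹) i k = (1 : Matrix (Fin (R j)) (Fin (R j)) K) i k := by
      rw [Matrix.mul_nonsing_inv _ (isUnit_iff_ne_zero.2 (hg j))]
    rw [← h1]
    rfl
  let CO : ∀ j, Matrix (Fin (r j)) (Fin (R j)) P.O := fun j =>
    Matrix.of fun m k => ⟨Cm j m k, hCreg j m k⟩
  have hCO : ∀ j, (CO j).map (io P) = Cm j := fun j => rfl
  have hCOid : ∀ j i k, CO j (S j i) k = if i = k then 1 else 0 := by
    intro j i k
    apply Subtype.ext
    change Cm j (S j i) k = _
    rw [hCid, Matrix.one_apply]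
    split_ifs <;> rfl
  set HO : Matrix (Vr r) (Vr R) P.O := bm CO with hHO
  have hHOmap : HO.map (io P) = bm Cm := by
    rw [hHO, bm_map]
    rfl
  have hrow : ∀ (v : Vr R → ℂ) (x : Vr R), (HO.map (theta P)).mulVec v ⟨x.1, S x.1 x.2⟩ = v x := by
    intro v x
    rw [hHO, bm_map, bm_mulVec]
    change ∑ k, theta P (CO x.1 (S x.1 x.2) k) * v ⟨x.1, k⟩ = v x
    rw [Finset.sum_eq_single x.2]
    · rw [hCOid, if_pos rfl, _root_.map_one, one_mul]
    · intro k _ hk
      rw [hCOid, if_neg hk.symm, _root_.map_zero, zero_mul]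
    · intro h; exact absurd (Finset.mem_univ _) h
  have hcomp : ∀ s, psM (fun j => Λ j * (g j)⁻¹) s = ps (bm Cm) (locM E P s) := by
    intro s
    rw [psM_eq, locM_eq, ps_ps, bm_mul]
    congr 3
    funext j
    change Λ j * (g j)⁻¹ = ((E j).B P)⁻¹ * ((E j).B P * Λ j * (g j)⁻¹)
    rw [Matrix.mul_assoc, ← Matrix.mul_assoc ((E j).B P)⁻¹,
      Matrix.nonsing_inv_mul _ (isUnit_iff_ne_zero.2 ((E j).det_ne P)), Matrix.one_mul]
  -- the lift
  have hlift : ∀ s, IsSecM E a N s → ∃ F : MvPolynomial (Vr r) P.O,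
      MvPolynomial.map (io P) F = C (t ^ N P) * locM E P s := by
    intro s hs
    apply exists_lift
    intro α
    rw [coeff_C_mul]
    have h2 : Ge P (N P) (t ^ (N P)) := Or.inr (by rw [P.ord_zpow, ht]; simp)
    have := ge_mul h2 (hs.2 P α)
    rwa [add_neg_cancel] at this
  let T : MvPolynomial (Vr r) K → MvPolynomial (Vr R) K := fun s =>
    C (t ^ N P) * psM (fun j => Λ j * (g j)⁻¹) s
  have hT : ∀ s (F : MvPolynomial (Vr r) P.O),
      MvPolynomial.map (io P) F = C (t ^ N P) * locM E P s →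
      MvPolynomial.map (io P) (ps HO F) = T s := by
    intro s F hF
    rw [map_ps, hF, hHOmap, _root_.map_mul, ps_C]
    change _ = C (t ^ N P) * psM (fun j => Λ j * (g j)⁻¹) s
    rw [hcomp]
  have he0 : (fun i => io P (e0 P.O R i)) = e0 K R := by
    funext x
    unfold e0
    split_ifs
    · exact _root_.map_one _
    · exact _root_.map_zero _
  have he0' : (fun i => theta P (e0 P.O R i)) = e0 ℂ R := by
    funext x
    unfold e0
    split_ifs
    · exact _root_.map_one _
    · exact _root_.map_zero _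
  have hc0 : ∀ s (F : MvPolynomial (Vr r) P.O),
      MvPolynomial.map (io P) F = C (t ^ N P) * locM E P s →
      coeff 0 (dh (T s)) = io P (eval (e0 P.O R) (ps HO F)) := by
    intro s F hF
    rw [coeff_zero_dh, eval_map', he0, hT s F hF]
  have hc1 : ∀ s (F : MvPolynomial (Vr r) P.O) (x : Fr R),
      MvPolynomial.map (io P) F = C (t ^ N P) * locM E P s →
      coeff (Finsupp.single x.1 1) (dh (T s)) =
        io P (eval (e0 P.O R) (pderiv x.1 (ps HO F))) := by
    intro s F x hF
    rw [coeff_single_dh, eval_map', he0, ← pderiv_map, hT s F hF]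
  -- the base point
  let ξ' : Vr r → ℂ := (HO.map (theta P)).mulVec (e0 ℂ R)
  let ξ : ∀ j, Fin (r j) → ℂ := fun j i => ξ' ⟨j, i⟩
  have hξ : ∀ j, ξ j ≠ 0 := by
    intro j h0
    have h1 := congrFun h0 (S j ⟨0, hR j⟩)
    have h2 := hrow (e0 ℂ R) ⟨j, ⟨0, hR j⟩⟩
    change ξ j (S j ⟨0, hR j⟩) = _ at h2
    rw [h1] at h2
    unfold e0 at h2
    rw [if_pos rfl] at h2
    exact zero_ne_one h2
  have hpt : ∀ (ζ : ∀ j, Fin (r j) → ℂ), ptM E P ζ =
      (bm fun j => ((E j).B P)⁻¹).mulVec (fun x => io P (cst P (ζ x.1 x.2))) := fun ζ => ptM_eq E P ζ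
  -- the values
  have hval : ∀ s (F : MvPolynomial (Vr r) P.O) (ζ : ∀ j, Fin (r j) → ℂ),
      MvPolynomial.map (io P) F = C (t ^ N P) * locM E P s →
      t ^ N P * eval (ptM E P ζ) s = io P (eval (fun x => cst P (ζ x.1 x.2)) F) := by
    intro s F ζ hF
    rw [eval_map', hF, _root_.map_mul, eval_C, locM_eq, eval_ps, hpt]
  have hval0 : ∀ s (F : MvPolynomial (Vr r) P.O),
      MvPolynomial.map (io P) F = C (t ^ N P) * locM E P s →
      (Ge P (1 - N P) (eval (ptM E P ξ) s) ↔ theta P (eval (e0 P.O R) (ps HO F)) = 0) := by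
    intro s F hF
    rw [ge_scale ht, hval s F ξ hF, ← theta_eq_zero, eval_map', eval_map', map_ps, eval_ps, he0']
    simp only [theta_cst]
    rfl
  have hTadd : ∀ s s', T (s + s') = T s + T s' := by
    intro s s'
    change C (t ^ N P) * psM _ (s + s') = C (t ^ N P) * psM _ s + C (t ^ N P) * psM _ s'
    rw [map_add, mul_add]
  have hTsmul : ∀ (c : ℂ) s, T (C (algebraMap ℂ K c) * s) = C (algebraMap ℂ K c) * T s := by
    intro c s
    change C (t ^ N P) * psM _ (C (algebraMap ℂ K c) * s) =
      C (algebraMap ℂ K c) * (C (t ^ N P) * psM _ s)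
    rw [_root_.map_mul, psM_eq, ps_C]
    ring
  have hdhC : ∀ (c : ℂ) (f : MvPolynomial (Vr R) K) α, coeff α (dh (C (algebraMap ℂ K c) * f)) =
      algebraMap ℂ K c * coeff α (dh f) := by
    intro c f α
    unfold dh
    rw [_root_.map_mul, aeval_C, MvPolynomial.algebraMap_eq, coeff_C_mul]
  have hdhadd : ∀ (f f' : MvPolynomial (Vr R) K) α, coeff α (dh (f + f')) =
      coeff α (dh f) + coeff α (dh f') := by
    intro f f' α
    rw [map_add, coeff_add]
  -- the possible jets
  let W : Submodule ℂ (Option (Fr R) → ℂ) :=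
    { carrier := {w | ∃ s, IsSecM E a N s ∧
        Ge P 2 (coeff 0 (dh (T s)) - algebraMap ℂ K (w none) * t) ∧
        ∀ x : Fr R, Ge P 1 (coeff (Finsupp.single x.1 1) (dh (T s)) -
          algebraMap ℂ K (w (some x)))}
      zero_mem' := by
        refine ⟨0, isSecM_zero E a N, ?_, fun x => ?_⟩
        · have : T 0 = 0 := by
            change C (t ^ N P) * psM _ 0 = 0
            rw [_root_.map_zero, mul_zero]
          rw [this, _root_.map_zero, coeff_zero, Pi.zero_apply, _root_.map_zero, zero_mul, sub_zero]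
          exact ge_zero
        · have : T 0 = 0 := by
            change C (t ^ N P) * psM _ 0 = 0
            rw [_root_.map_zero, mul_zero]
          rw [this, _root_.map_zero, coeff_zero, Pi.zero_apply, _root_.map_zero, sub_zero]
          exact ge_zero
      add_mem' := by
        rintro w w' ⟨s, hs, h1, h2⟩ ⟨s', hs', h1', h2'⟩
        refine ⟨s + s', isSecM_add hs hs', ?_, fun x => ?_⟩
        · rw [hTadd, hdhadd, Pi.add_apply, map_add]
          have := ge_add h1 h1'
          convert this using 1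
          ring
        · rw [hTadd, hdhadd, Pi.add_apply, map_add]
          have := ge_add (h2 x) (h2' x)
          convert this using 1
          ring
      smul_mem' := by
        rintro c w ⟨s, hs, h1, h2⟩
        have hc : Ge P 0 (algebraMap ℂ K c) := P.reg_const c
        refine ⟨C (algebraMap ℂ K c) * s, isSecM_smul hs c, ?_, fun x => ?_⟩
        · rw [hTsmul, hdhC, Pi.smul_apply, smul_eq_mul, (algebraMap ℂ K).map_mul]
          have := ge_mul hc h1
          rw [zero_add] at this
          convert this using 1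
          ring
        · rw [hTsmul, hdhC, Pi.smul_apply, smul_eq_mul, (algebraMap ℂ K).map_mul]
          have := ge_mul hc (h2 x)
          rw [zero_add] at this
          convert this using 1
          ring }
  have hW : W = ⊤ := by
    by_contra hne
    obtain ⟨φ, hφ0, hφ⟩ := Submodule.exists_le_ker_of_lt_top W (lt_top_iff_ne_top.2 hne)
    let τ : Option (Fr R) → ℂ := fun k => φ (fun j => if k = j then 1 else 0)
    have hφτ : ∀ w, φ w = ∑ k, w k * τ k := fun w => LinearMap.pi_apply_eq_sum_univ φ w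
    have hτ : ∃ k, τ k ≠ 0 := by
      by_contra hc
      push Not at hc
      apply hφ0
      refine LinearMap.ext fun w => ?_
      rw [hφτ, LinearMap.zero_apply]
      exact Finset.sum_eq_zero fun k _ => by rw [hc, mul_zero]
    let ζ : Vr R → ℂ := fun x => if h : (x.2 : ℕ) ≠ 0 then τ (some ⟨x, h⟩) else 0
    have hζ : ∀ x : Fr R, ζ x.1 = τ (some x) := fun x => dif_pos x.2
    have hsumζ : ∀ A : Vr R → ℂ, ∑ x : Fr R, A x.1 * τ (some x) = ∑ y, ζ y * A y := by
      intro A
      rw [← Finset.sum_subset (Finset.filter_subset (fun y : Vr R => (y.2 : ℕ) ≠ 0) Finset.univ)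
        (fun y _ hy => by
          have h1 : ¬ ((y.2 : ℕ) ≠ 0) := fun h => hy (Finset.mem_filter.2 ⟨Finset.mem_univ _, h⟩)
          have h2 : ζ y = 0 := dif_neg h1
          rw [h2, zero_mul])]
      rw [Finset.sum_subtype (p := fun y : Vr R => (y.2 : ℕ) ≠ 0) _ (fun y => by simp)]
      refine Finset.sum_congr rfl fun x _ => ?_
      rw [← hζ, mul_comm]
    -- the functional kills the jets
    have key : ∀ s (F : MvPolynomial (Vr r) P.O), IsSecM E a N s →
        MvPolynomial.map (io P) F = C (t ^ N P) * locM E P s →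
        ∀ b, eval (e0 P.O R) (ps HO F) = tO P t ht * b →
        theta P b * τ none + dd (e0 ℂ R) ζ (MvPolynomial.map (theta P) (ps HO F)) = 0 := by
      intro s F hs hF b hb
      let A : Vr R → ℂ := fun y => theta P (eval (e0 P.O R) (pderiv y (ps HO F)))
      let w : Option (Fr R) → ℂ := fun k => k.elim (theta P b) (fun x => A x.1)
      have hw : w ∈ W := by
        refine ⟨s, hs, ?_, fun x => ?_⟩
        · rw [hc0 s F hF, hb]
          have h1 : theta P (b - cst P (theta P b)) = 0 := by
            rw [map_sub, theta_cst, sub_self]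
          obtain ⟨b', hb'⟩ := div_t ht h1
          have h2 : io P (tO P t ht * b) - algebraMap ℂ K (w none) * t =
              io P (tO P t ht ^ 2 * b') := by
            rw [pow_two, mul_assoc, ← hb', _root_.map_mul, _root_.map_mul, map_sub]
            change t * io P b - algebraMap ℂ K (theta P b) * t =
              t * (io P b - algebraMap ℂ K (theta P b))
            ring
          rw [h2]
          exact ge_t2_mul ht b'
        · rw [hc1 s F x hF]
          have h1 : theta P (eval (e0 P.O R) (pderiv x.1 (ps HO F)) - cst P (A x.1)) = 0 := by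
            rw [map_sub, theta_cst, sub_self]
          rw [theta_eq_zero, map_sub] at h1
          exact h1
      have h1 := hφ hw
      rw [LinearMap.mem_ker, hφτ, Fintype.sum_option] at h1
      change theta P b * τ none + ∑ x : Fr R, A x.1 * τ (some x) = 0 at h1
      rw [hsumζ] at h1
      rw [← h1]
      congr 1
      unfold dd
      refine Finset.sum_congr rfl fun y _ => ?_
      change ζ y * _ = ζ y * theta P _
      rw [eval_map', he0', pderiv_map]
    by_cases h0 : τ none = 0
    · -- a vertical tangent vector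
      obtain ⟨k0, hk0⟩ := hτ
      obtain ⟨x0, rfl⟩ : ∃ x0 : Fr R, k0 = some x0 := by
        rcases k0 with _ | x0
        · exact absurd h0 hk0
        · exact ⟨x0, rfl⟩
      let η' : Vr r → ℂ := (HO.map (theta P)).mulVec ζ
      let η : ∀ j, Fin (r j) → ℂ := fun j i => η' ⟨j, i⟩
      obtain ⟨s, hs, h1, h2⟩ := hVA.2.2.2 P ξ η hξ ⟨x0.1.1, by
        rintro ⟨c, hc⟩
        have h3 := congrFun hc (S x0.1.1 x0.1.2)
        have h4 := hrow ζ x0.1
        have h5 := hrow (e0 ℂ R) x0.1
        change η x0.1.1 (S x0.1.1 x0.1.2) = c * ξ x0.1.1 (S x0.1.1 x0.1.2) at h3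
        change η x0.1.1 (S x0.1.1 x0.1.2) = ζ x0.1 at h4
        change ξ x0.1.1 (S x0.1.1 x0.1.2) = e0 ℂ R x0.1 at h5
        rw [h4, h5] at h3
        have h6 : e0 ℂ R x0.1 = 0 := if_neg x0.2
        rw [h6, mul_zero, hζ] at h3
        exact hk0 h3⟩
      obtain ⟨F, hF⟩ := hlift s hs
      rw [hval0 s F hF] at h1
      obtain ⟨b, hb⟩ := div_t ht h1
      have h3 := key s F hs hF b hb
      rw [h0, mul_zero, zero_add] at h3
      apply h2
      change Ge P (1 - N P) (dd (ptM E P ξ) (ptM E P η) s)
      rw [ge_scale ht]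
      have h4 : t ^ N P * dd (ptM E P ξ) (ptM E P η) s =
          io P (dd (fun x => cst P (ξ x.1 x.2)) (fun x => cst P (η x.1 x.2)) F) := by
        rw [dd_map, hF, dd_mul, dd_C, zero_mul, zero_add, eval_C, locM_eq, dd_ps, hpt, hpt]
      rw [h4, ← theta_eq_zero, dd_map]
      simp only [theta_cst]
      rw [map_ps, dd_ps] at h3
      exact h3
    · -- a transversal tangent vector
      let ζ' : Vr R → ℂ := fun y => (τ none)⁻¹ * ζ y
      have h1 : ∀ x, ∃ y, HO.mulVec (e0 P.O R) x - cst P (ξ' x) = tO P t ht * y := by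
        intro x
        apply div_t ht
        rw [map_sub, theta_cst, sub_eq_zero]
        change theta P (∑ k, HO x k * e0 P.O R k) = ∑ k, theta P (HO x k) * e0 ℂ R k
        rw [map_sum]
        refine Finset.sum_congr rfl fun k _ => ?_
        rw [_root_.map_mul, ← he0']
      choose y hy using h1
      let u : Vr r → P.O := fun x => y x + HO.mulVec (fun k => cst P (ζ' k)) x
      let η : ∀ j, Fin (r j) → ℂ := fun j i => theta P (u ⟨j, i⟩)
      have h2 : ∀ x : Vr r, ∃ z, u x - cst P (η x.1 x.2) = tO P t ht * z := by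
        intro x
        apply div_t ht
        rw [map_sub, theta_cst, sub_eq_zero]
      choose z hz using h2
      obtain ⟨s, hs, h3, h4⟩ := hVA.2.2.1 P t ξ η ht hξ
      obtain ⟨F, hF⟩ := hlift s hs
      rw [hval0 s F hF] at h3
      obtain ⟨b, hb⟩ := div_t ht h3
      have h5 := key s F hs hF b hb
      apply h4
      rw [ge_scale ht]
      let p : Vr r → P.O := (fun x => cst P (ξ x.1 x.2)) + tO P t ht • fun x => cst P (η x.1 x.2)
      have h6 : t ^ N P * eval (ptM E P ξ + t • ptM E P η) s = io P (eval p F) := by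
        rw [eval_map', hF, _root_.map_mul, eval_C, locM_eq, eval_ps, hpt, hpt, ← Matrix.mulVec_smul,
          ← Matrix.mulVec_add]
        congr 3
      rw [h6]
      have h7 : HO.mulVec (e0 P.O R + tO P t ht • fun k => cst P (ζ' k)) =
          p + (tO P t ht ^ 2) • z := by
        rw [Matrix.mulVec_add, Matrix.mulVec_smul]
        funext x
        have e1 := hy x
        have e2 := hz x
        change HO.mulVec (e0 P.O R) x + tO P t ht * HO.mulVec (fun k => cst P (ζ' k)) x =
          cst P (ξ' x) + tO P t ht * cst P (η x.1 x.2) + tO P t ht ^ 2 * z x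
        change y x + HO.mulVec (fun k => cst P (ζ' k)) x - cst P (η x.1 x.2) =
          tO P t ht * z x at e2
        linear_combination e1 + tO P t ht * e2
      obtain ⟨c1, hc1'⟩ := taylor p z (tO P t ht ^ 2) F
      obtain ⟨c2, hc2⟩ := taylor (e0 P.O R) (fun k => cst P (ζ' k)) (tO P t ht) (ps HO F)
      rw [eval_ps, h7, hc1', hb] at hc2
      have h8 : theta P (b + dd (e0 P.O R) (fun k => cst P (ζ' k)) (ps HO F)) = 0 := by
        rw [map_add, dd_map, he0']
        simp only [theta_cst]
        have h9 : dd (e0 ℂ R) ζ' (MvPolynomial.map (theta P) (ps HO F)) =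
            (τ none)⁻¹ * dd (e0 ℂ R) ζ (MvPolynomial.map (theta P) (ps HO F)) := by
          unfold dd
          rw [Finset.mul_sum]
          exact Finset.sum_congr rfl fun k _ => mul_assoc _ _ _
        rw [h9]
        field_simp
        linear_combination h5
      obtain ⟨b2, hb2⟩ := div_t ht h8
      have h10 : eval p F = tO P t ht ^ 2 * (b2 + c2 - dd p z F - tO P t ht ^ 2 * c1) := by
        linear_combination hc2 + tO P t ht * hb2
      rw [h10]
      exact ge_t2_mul ht _
  -- the end
  obtain ⟨s0, hs0, hs0'⟩ := hVA.1 P ξ hξ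
  obtain ⟨F0, hF0⟩ := hlift s0 hs0
  rw [hval0 s0 F0 hF0] at hs0'
  have hmem : ∀ k : Option (Fr R), (Pi.single k 1 : Option (Fr R) → ℂ) ∈ W := by
    intro k
    rw [hW]
    exact Submodule.mem_top
  choose s hs h1 h2 using hmem
  refine ⟨C (algebraMap ℂ K (theta P (eval (e0 P.O R) (ps HO F0)))⁻¹) * s0, s, isSecM_smul hs0 _, hs,
    ?_, ⟨?_, fun x => ?_⟩, fun y => ⟨?_, fun x => ?_⟩⟩
  · change Ge P 1 (coeff 0 (dh (T _)) - 1)
    rw [hTsmul, hdhC, hc0 s0 F0 hF0]
    have h3 : theta P (cst P (theta P (eval (e0 P.O R) (ps HO F0)))⁻¹ *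
        eval (e0 P.O R) (ps HO F0) - 1) = 0 := by
      rw [map_sub, _root_.map_mul, theta_cst, _root_.map_one, inv_mul_cancel₀ hs0', sub_self]
    rw [theta_eq_zero, map_sub, _root_.map_mul, _root_.map_one] at h3
    exact h3
  · have := h1 none
    rw [Pi.single_eq_same, _root_.map_one, one_mul] at this
    exact this
  · have := h2 none x
    rw [Pi.single_eq_of_ne (by simp), _root_.map_zero, sub_zero] at this
    exact this
  · have := h1 (some y)
    rw [Pi.single_eq_of_ne (by simp), _root_.map_zero, zero_mul, sub_zero] at this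
    exact this
  · have := h2 (some y) x
    by_cases hxy : x = y
    · subst hxy
      rw [Pi.single_eq_same, _root_.map_one] at this
      rw [if_pos rfl]
      exact this
    · rw [Pi.single_eq_of_ne (by simpa using hxy), _root_.map_zero] at this
      rw [if_neg hxy]
      exact this

end main

end Pool.Agent.Helper4.PP
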